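import Pool.Agent.Helper60.NF.Frm
import Pool.Agent.Helper18.NF.Nd
import Pool.Agent.Helper70.NF.CardFits

/-!
# F10: the closing instances of one state
-/

set_option autoImplicit false

namespace Pool.Agent.Helper89.NF

open Pool.Agent.Helper6.IP (cnt tm)
open Pool.Agent.Helper19.NF
open Pool.Agent.Helper18.NF (nd_inj nd_row)
open Pool.Agent.Helper70.NF (wt card_fits sum_wt)

variable {n m : ℕ} [NeZero m] {B Z : Type} [AddCommGroup B] {σ S : ℕ}

theorem finite_fits (L : Fin (n - 1) → Label n m) (T : ℕ) : Finite {num : Idx L → ℕ // Fits L T num} := by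
  apply Finite.of_injective (fun (f : {num : Idx L → ℕ // Fits L T num}) (x : Idx L) => (⟨f.1 x, f.2.1 x⟩ : Fin T))
  intro f g h
  apply Subtype.ext
  funext x
  have := congrFun h x
  simpa using congrArg Fin.val this

theorem wt_nonneg {K x : ℝ} (hK : 0 ≤ K) (hx : 0 < x) (ℓ : Label n m) : 0 ≤ wt K x ℓ := by
  unfold wt
  split_ifs
  · positivity
  · positivity

/-- The instances of one sequence of labels. -/
theorem label_bound [Fintype B] (x0 : Pos n m → B) (P : Prog B (Dir m → B) Z σ S) (q : Fin S) (T : ℕ) (x : ℝ)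
    (hx : 0 < x) (L : Fin (n - 1) → Label n m) :
    (Nat.card (Σ num : {num : Idx L → ℕ // Valid L ∧ Fits L T num},
      {I : B → Dir m → B // CF (ring n m) x0 n I ∧ Typ x0 I (obs P I q) L num.1}) : ℝ) ≤
      Real.exp x * (∏ a, wt ((T : ℝ) / Fintype.card B) x (L a)) * Nat.card (B → Dir m → B) := by
  classical
  have hk : 0 < Fintype.card B := Fintype.card_pos_iff.mpr ⟨0⟩
  have hkr : (0 : ℝ) < (Fintype.card B : ℝ) := by exact_mod_cast hk
  have hK : (0 : ℝ) ≤ (T : ℝ) / Fintype.card B := by positivity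
  have hw : 0 ≤ ∏ a, wt ((T : ℝ) / Fintype.card B) x (L a) :=
    Finset.prod_nonneg fun a _ => wt_nonneg hK hx _
  by_cases hV : Valid L
  · have e : {num : Idx L → ℕ // Valid L ∧ Fits L T num} ≃ {num : Idx L → ℕ // Fits L T num} :=
      Equiv.subtypeEquivRight fun num => by simp [hV]
    have := finite_fits L T
    have : Finite {num : Idx L → ℕ // Valid L ∧ Fits L T num} := Finite.of_equiv _ e.symm
    haveI : Fintype {num : Idx L → ℕ // Valid L ∧ Fits L T num} := Fintype.ofFinite _
    rw [Nat.card_sigma]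
    push_cast
    have h1 : ∀ num : {num : Idx L → ℕ // Valid L ∧ Fits L T num},
        (Nat.card {I : B → Dir m → B // CF (ring n m) x0 n I ∧ Typ x0 I (obs P I q) L num.1} : ℝ) ≤
          Nat.card (B → Dir m → B) / (Fintype.card B : ℝ) ^ Fintype.card (Idx L) := by
      intro num
      rw [le_div_iff₀ (by positivity)]
      have := Pool.Agent.Helper60.NFF.secrets (ring n m) x0 n P q (fun x : Idx L => (n - lev L x.1, pst L x.1 x.2.1))
        (nd_inj L hV) (fun x => nd_row L hV x.1) (fun x => slt L x.1 x.2.1) num.1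
      exact_mod_cast this
    calc ∑ num : {num : Idx L → ℕ // Valid L ∧ Fits L T num},
          (Nat.card {I : B → Dir m → B // CF (ring n m) x0 n I ∧ Typ x0 I (obs P I q) L num.1} : ℝ)
        ≤ ∑ _num : {num : Idx L → ℕ // Valid L ∧ Fits L T num},
          Nat.card (B → Dir m → B) / (Fintype.card B : ℝ) ^ Fintype.card (Idx L) := Finset.sum_le_sum fun num _ => h1 num
      _ = (Nat.card {num : Idx L → ℕ // Fits L T num} : ℝ) *
          (Nat.card (B → Dir m → B) / (Fintype.card B : ℝ) ^ Fintype.card (Idx L)) := by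
          rw [Finset.sum_const, nsmul_eq_mul, Finset.card_univ, ← Nat.card_eq_fintype_card, Nat.card_congr e]
      _ ≤ (Real.exp x * (∏ a, wt ((T : ℝ) / Fintype.card B) x (L a)) *
            (Fintype.card B : ℝ) ^ Fintype.card (Idx L)) *
          (Nat.card (B → Dir m → B) / (Fintype.card B : ℝ) ^ Fintype.card (Idx L)) := by
          apply mul_le_mul_of_nonneg_right (card_fits L T _ hk x hx) (by positivity)
      _ = _ := by
          field_simp
  · haveI : IsEmpty {num : Idx L → ℕ // Valid L ∧ Fits L T num} := ⟨fun s => hV s.2.1⟩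
    have : Nat.card (Σ num : {num : Idx L → ℕ // Valid L ∧ Fits L T num},
      {I : B → Dir m → B // CF (ring n m) x0 n I ∧ Typ x0 I (obs P I q) L num.1}) = 0 := Nat.card_of_isEmpty
    rw [this]
    have : (0 : ℝ) ≤ (Nat.card (B → Dir m → B) : ℝ) := by positivity
    simp only [Nat.cast_zero]
    positivity

/-- F10: the closing instances of one state. -/
theorem close_bound [Fintype B] (x0 : Pos n m → B) (P : Prog B (Dir m → B) Z σ S) (q : Fin S) (T : ℕ) (x : ℝ)
    (hx : 0 < x) :
    (Nat.card {I : B → Dir m → B // CF (ring n m) x0 n I ∧ ∃ (L : Fin (n - 1) → Label n m) (num : Idx L → ℕ),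
      Valid L ∧ Fits L T num ∧ Typ x0 I (obs P I q) L num} : ℝ) ≤
      Real.exp x * (4 * m ^ 2 * ((T : ℝ) / Fintype.card B) / x + 2 * m ^ 2 * n * ((T : ℝ) / Fintype.card B) ^ m) ^ (n - 1)
        * Nat.card (B → Dir m → B) := by
  classical
  have hfin : ∀ L : Fin (n - 1) → Label n m, Finite {num : Idx L → ℕ // Valid L ∧ Fits L T num} := by
    intro L
    have := finite_fits L T
    exact Finite.of_injective (fun s : {num : Idx L → ℕ // Valid L ∧ Fits L T num} =>
      (⟨s.1, s.2.2⟩ : {num : Idx L → ℕ // Fits L T num})) fun a b h => Subtype.ext (by simpa using h)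
  have h1 : Nat.card {I : B → Dir m → B // CF (ring n m) x0 n I ∧ ∃ (L : Fin (n - 1) → Label n m) (num : Idx L → ℕ),
      Valid L ∧ Fits L T num ∧ Typ x0 I (obs P I q) L num} ≤
      Nat.card (Σ L : Fin (n - 1) → Label n m, Σ num : {num : Idx L → ℕ // Valid L ∧ Fits L T num},
        {I : B → Dir m → B // CF (ring n m) x0 n I ∧ Typ x0 I (obs P I q) L num.1}) := by
    refine Nat.card_le_card_of_injective (fun s => ⟨s.2.2.choose, ⟨s.2.2.choose_spec.choose,
      s.2.2.choose_spec.choose_spec.1, s.2.2.choose_spec.choose_spec.2.1⟩, ⟨s.1, s.2.1,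
      s.2.2.choose_spec.choose_spec.2.2⟩⟩) ?_
    intro a b h
    have := congrArg (fun z : (Σ L : Fin (n - 1) → Label n m, Σ num : {num : Idx L → ℕ // Valid L ∧ Fits L T num},
        {I : B → Dir m → B // CF (ring n m) x0 n I ∧ Typ x0 I (obs P I q) L num.1}) => z.2.2.1) h
    exact Subtype.ext this
  rw [Nat.card_sigma] at h1
  calc (Nat.card {I : B → Dir m → B // CF (ring n m) x0 n I ∧ ∃ (L : Fin (n - 1) → Label n m) (num : Idx L → ℕ),
        Valid L ∧ Fits L T num ∧ Typ x0 I (obs P I q) L num} : ℝ)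
      ≤ ∑ L : Fin (n - 1) → Label n m, (Nat.card (Σ num : {num : Idx L → ℕ // Valid L ∧ Fits L T num},
        {I : B → Dir m → B // CF (ring n m) x0 n I ∧ Typ x0 I (obs P I q) L num.1}) : ℝ) := by exact_mod_cast h1
    _ ≤ ∑ L : Fin (n - 1) → Label n m, Real.exp x * (∏ a, wt ((T : ℝ) / Fintype.card B) x (L a)) *
        Nat.card (B → Dir m → B) := Finset.sum_le_sum fun L _ => label_bound x0 P q T x hx L
    _ = Real.exp x * (∑ L : Fin (n - 1) → Label n m, ∏ a, wt ((T : ℝ) / Fintype.card B) x (L a)) *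
        Nat.card (B → Dir m → B) := by rw [← Finset.sum_mul, ← Finset.mul_sum]
    _ = _ := by rw [sum_wt]

end Pool.Agent.Helper89.NF
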